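import Pool.Agent.EQC.Stmts
import Pool.Agent.Helper92_EQC.Orient

/-!
# Squad EQC, row BAL
-/

namespace Pool.Agent.EQC.H33

open Finset

theorem cnt_eq {α : Type} [Fintype α] (p : α → Prop) : cnt p = {x | p x}.ncard := by
  classical
  rw [cnt, Set.ncard_eq_toFinset_card']
  congr 1
  ext x
  simp

theorem bal : BalStmt := by
  intro ι V _ _ s t
  obtain ⟨o, ho⟩ := H92.bal_orient s t
  refine ⟨o, fun v => ?_⟩
  rw [cnt_eq, cnt_eq]
  exact ho v

end Pool.Agent.EQC.H33
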