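import Pool.Agent.EQC.Stmts

/-!
# Squad EQC: row DIG (digits in base `B`)
-/

open Finset

namespace Pool.Agent.EQC.H33

theorem dig_lt (B : ℕ) (n : ℕ → ℕ) : ∀ q, (∀ k < q, n k < B) →
    ∑ k ∈ range q, n k * B ^ k < B ^ q := by
  intro q
  induction q with
  | zero => intro _; simp
  | succ q ih =>
    intro h
    have h1 := ih (fun k hk => h k (Nat.lt_succ_of_lt hk))
    have h2 : n q + 1 ≤ B := h q (Nat.lt_succ_self q)
    have h3 : (n q + 1) * B ^ q ≤ B * B ^ q := Nat.mul_le_mul_right _ h2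
    rw [sum_range_succ, pow_succ, mul_comm (B ^ q) B]
    calc ∑ k ∈ range q, n k * B ^ k + n q * B ^ q < B ^ q + n q * B ^ q :=
          Nat.add_lt_add_right h1 _
      _ = (n q + 1) * B ^ q := by ring
      _ ≤ B * B ^ q := h3

theorem dig_eq (B : ℕ) (n1 n2 : ℕ → ℕ) : ∀ q, (∀ k < q, n1 k < B) → (∀ k < q, n2 k < B) →
    ∑ k ∈ range q, n1 k * B ^ k = ∑ k ∈ range q, n2 k * B ^ k → ∀ k < q, n1 k = n2 k := by
  intro q
  induction q with
  | zero => intro _ _ _ k hk; exact absurd hk (Nat.not_lt_zero k)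
  | succ q ih =>
    intro h1 h2 he
    have l1 := dig_lt B n1 q (fun k hk => h1 k (Nat.lt_succ_of_lt hk))
    have l2 := dig_lt B n2 q (fun k hk => h2 k (Nat.lt_succ_of_lt hk))
    rw [sum_range_succ, sum_range_succ] at he
    have hq : n1 q = n2 q := by
      rcases lt_trichotomy (n1 q) (n2 q) with hlt | heq | hgt
      · exfalso
        have h3 : (n1 q + 1) * B ^ q ≤ n2 q * B ^ q := Nat.mul_le_mul_right _ hlt
        have h4 : (n1 q + 1) * B ^ q = n1 q * B ^ q + B ^ q := by ring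
        omega
      · exact heq
      · exfalso
        have h3 : (n2 q + 1) * B ^ q ≤ n1 q * B ^ q := Nat.mul_le_mul_right _ hgt
        have h4 : (n2 q + 1) * B ^ q = n2 q * B ^ q + B ^ q := by ring
        omega
    have hs : ∑ k ∈ range q, n1 k * B ^ k = ∑ k ∈ range q, n2 k * B ^ k := by
      rw [hq] at he
      exact Nat.add_right_cancel he
    intro k hk
    rcases Nat.lt_succ_iff_lt_or_eq.1 hk with h | h
    · exact ih (fun k hk => h1 k (Nat.lt_succ_of_lt hk))
        (fun k hk => h2 k (Nat.lt_succ_of_lt hk)) hs k h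
    · rw [h]; exact hq

theorem dig_pull (B : ℕ) (n : ℕ → ℕ) (q : ℕ) :
    ∑ k ∈ range q, n k * B ^ (k + 1) = B * ∑ k ∈ range q, n k * B ^ k := by
  rw [mul_sum]
  refine sum_congr rfl fun k _ => ?_
  rw [pow_succ]
  ring

/-- **DIG** -/
theorem dig : DigStmt := by
  intro q B n1 n2 h1 h2 ha hb
  rw [dig_pull, dig_pull] at ha hb
  have ha' : B * ∑ k ∈ range q, n1 k * B ^ k < B * (∑ k ∈ range q, n2 k * B ^ k + 1) := by
    rw [mul_add, mul_one]; exact ha
  have hb' : B * ∑ k ∈ range q, n2 k * B ^ k < B * (∑ k ∈ range q, n1 k * B ^ k + 1) := by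
    rw [mul_add, mul_one]; exact hb
  have ha2 := Nat.lt_of_mul_lt_mul_left ha'
  have hb2 := Nat.lt_of_mul_lt_mul_left hb'
  exact dig_eq B n1 n2 q h1 h2 (by omega)

end Pool.Agent.EQC.H33
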