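import Pool.Agent.EQC.Stmts

/-!
# Squad EQC: row EQU (range and equitable)
-/

open SimpleGraph Finset
open Pool.Agent.Helper51_Equitable (edges nbrs vertexSum nb IsEquitableProper Nice mem_edges)

namespace Pool.Agent.EQC.H33

theorem fv_le (c : ℕ) (f : Fin 4) : fv c f ≤ 4 * c + 2 := by
  unfold fv
  split_ifs <;> omega

theorem fv_inj {c : ℕ} (hc : 1 ≤ c) {f f' : Fin 4} (h : fv c f = fv c f') : f = f' := by
  have key : ∀ g : Fin 4, (g = 0 ∧ fv c g = 0) ∨ (g = 1 ∧ fv c g = 1) ∨ (g = 2 ∧ fv c g = 2) ∨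
      (g = 3 ∧ fv c g = 2 + 4 * c) := by
    intro g
    match g with
    | 0 => left; exact ⟨rfl, by simp [fv]⟩
    | 1 => right; left; exact ⟨rfl, by simp [fv]⟩
    | 2 => right; right; left; exact ⟨rfl, by simp [fv]⟩
    | 3 => right; right; right; exact ⟨rfl, by simp [fv]⟩
  rcases key f with ⟨h1, e1⟩ | ⟨h1, e1⟩ | ⟨h1, e1⟩ | ⟨h1, e1⟩ <;>
    rcases key f' with ⟨h2, e2⟩ | ⟨h2, e2⟩ | ⟨h2, e2⟩ | ⟨h2, e2⟩ <;>
    first
      | exact h1.trans h2.symm
      | (exfalso; omega)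

theorem pow_gap {B c k k' : ℕ} (hB : 4 * c + 3 < B) (h : k < k') :
    B ^ (k + 1) + (4 * c + 3) < B ^ (k' + 1) := by
  have hB0 : 0 < B := by omega
  have h1 : B ^ (k + 2) ≤ B ^ (k' + 1) := Nat.pow_le_pow_right hB0 (by omega)
  have h2 : B ^ (k + 2) = B * B ^ (k + 1) := by rw [pow_succ]; ring
  have h3 : 2 * B ^ (k + 1) ≤ B * B ^ (k + 1) := Nat.mul_le_mul_right _ (by omega)
  have h4 : B ^ 1 ≤ B ^ (k + 1) := Nat.pow_le_pow_right hB0 (by omega)
  rw [pow_one] at h4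
  omega

theorem val_inj {B c K k k' : ℕ} {f f' : Fin 4} (hc : 1 ≤ c) (hB : 4 * c + 3 < B)
    (h : K + B ^ (k + 1) + fv c f = K + B ^ (k' + 1) + fv c f') : k = k' ∧ f = f' := by
  have h1 := fv_le c f
  have h2 := fv_le c f'
  have hk : k = k' := by
    rcases lt_trichotomy k k' with hlt | heq | hgt
    · have := pow_gap (c := c) hB hlt
      omega
    · exact heq
    · have := pow_gap (c := c) hB hgt
      omega
  subst hk
  exact ⟨rfl, fv_inj hc (by omega)⟩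

theorem nb_num {V : Type} [Fintype V] (G : SimpleGraph V) {c B K : ℕ} (κ : Sym2 V → ℕ)
    (φ : Sym2 V → Fin 4) (hc : 1 ≤ c) (hB : 4 * c + 3 < B) (e : Sym2 V) :
    nb G (fun e => K + B ^ (κ e + 1) + fv c (φ e)) (K + B ^ (κ e + 1) + fv c (φ e)) =
      num G κ φ (κ e) (φ e) := by
  classical
  unfold nb num
  rw [← Set.ncard_coe_finset]
  congr 1
  ext x
  simp only [Set.mem_ofPred_eq, coe_filter, mem_edges]
  constructor
  · rintro ⟨hx, hv⟩
    exact ⟨hx, val_inj hc hB hv⟩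
  · rintro ⟨hx, h1, h2⟩
    refine ⟨hx, ?_⟩
    rw [h1, h2]

/-- **EQU** -/
theorem equ : EquStmt := by
  intro V _ G c q B K Q κ φ hc hB hq hQ
  constructor
  · intro e _
    have h1 := fv_le c (φ e)
    have hB0 : 0 < B := by omega
    have h2 : B ^ (κ e + 1) ≤ B ^ q := Nat.pow_le_pow_right hB0 (hq e)
    have h3 : 0 < B ^ (κ e + 1) := Nat.pow_pos hB0
    constructor <;> omega
  · intro l l' hl hl'
    have ex : ∀ l, 0 < nb G (fun e => K + B ^ (κ e + 1) + fv c (φ e)) l →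
        ∃ e, K + B ^ (κ e + 1) + fv c (φ e) = l := by
      intro l hl
      have hne : ({e | e ∈ G.edgeSet ∧ K + B ^ (κ e + 1) + fv c (φ e) = l} : Set (Sym2 V)).Nonempty := by
        by_contra hcon
        rw [Set.not_nonempty_iff_eq_empty] at hcon
        unfold nb at hl
        rw [hcon, Set.ncard_empty] at hl
        exact lt_irrefl _ hl
      obtain ⟨e, _, he⟩ := hne
      exact ⟨e, he⟩
    obtain ⟨e, he⟩ := ex l hl
    obtain ⟨e', he'⟩ := ex l' hl'
    rw [← he, ← he', nb_num G κ φ hc hB, nb_num G κ φ hc hB]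
    have a := (hQ (κ e) (hq e) (φ e)).2
    have b := (hQ (κ e') (hq e') (φ e')).1
    omega

end Pool.Agent.EQC.H33
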