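import Pool.Agent.Helper33_EQC.BAL

/-!
# Squad EQC, row STC
-/

namespace Pool.Agent.EQC.H33

open Finset

theorem stc : StcStmt := by
  intro t Ω β _ blk m hm hb
  classical
  -- every block is embedded in `Fin (2 ^ t)`
  have hinj : ∀ y : β, ∃ f : {x // blk x = y} → Fin (2 ^ t), Function.Injective f := by
    intro y
    have h1 : Fintype.card {x // blk x = y} ≤ Fintype.card (Fin (2 ^ t)) := by
      have h2 := hb y
      rw [cnt_eq] at h2
      rw [Fintype.card_fin, ← Nat.card_eq_fintype_card]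
      exact h2
    obtain ⟨f⟩ := Function.Embedding.nonempty_of_card_le h1
    exact ⟨f, f.injective⟩
  choose f hf using hinj
  obtain ⟨j, hj⟩ : ∃ j : Ω → Set.range blk × Fin (2 ^ t),
    ∀ x, j x = (⟨blk x, x, rfl⟩, f (blk x) ⟨x, rfl⟩) := ⟨_, fun x => rfl⟩
  have hji : Function.Injective j := by
    intro x y h
    rw [hj, hj, Prod.mk.injEq] at h
    obtain ⟨h1, h2⟩ := h
    have h3 : blk x = blk y := congrArg Subtype.val h1
    have h4 : f (blk y) ⟨x, h3⟩ = f (blk y) ⟨y, rfl⟩ := by
      rw [← h2]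
      have h5 : ∀ z (e : z = blk y) (e' : blk x = z), f z ⟨x, e'⟩ = f (blk y) ⟨x, e'.trans e⟩ := by
        rintro z rfl e'
        rfl
      exact (h5 (blk x) h3 rfl).symm
    exact congrArg Subtype.val (hf _ h4)
  obtain ⟨M, hM⟩ : ∃ M : Fin t → (Set.range blk × Fin (2 ^ t)) → (Set.range blk × Fin (2 ^ t)),
    ∀ i z, M i z = if h : ∃ x, j x = z then j (m i h.choose) else z := ⟨_, fun i z => rfl⟩
  have hM1 : ∀ i x, M i (j x) = j (m i x) := by
    intro i x
    have h : ∃ y, j y = j x := ⟨x, rfl⟩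
    rw [hM, dif_pos h, hji h.choose_spec]
  have hM2 : ∀ i z, (¬ ∃ x, j x = z) → M i z = z := fun i z h => by rw [hM, dif_neg h]
  have hMM : ∀ i z, M i (M i z) = z := by
    intro i z
    by_cases h : ∃ x, j x = z
    · obtain ⟨x, rfl⟩ := h
      rw [hM1, hM1, hm]
    · rw [hM2 i z h, hM2 i z h]
  obtain ⟨κ, hκ1, hκ2⟩ := H92.strong_matchings (E := Set.range blk × Fin (2 ^ t)) t
    (fun z => z.1) (by
      intro y
      have e : {x : Set.range blk × Fin (2 ^ t) // x.1 = y} ≃ Fin (2 ^ t) :=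
        { toFun := fun x => x.1.2
          invFun := fun k => ⟨(y, k), rfl⟩
          left_inv := by
            rintro ⟨⟨a, k⟩, h⟩
            apply Subtype.ext
            exact Prod.ext h.symm rfl
          right_inv := fun k => rfl }
      rw [Nat.card_congr e, Nat.card_eq_fintype_card, Fintype.card_fin]) M hMM
  have ecard : Nonempty ((Fin t → Bool) ≃ Fin (2 ^ t)) := by
    rw [← Finite.card_eq]
    simp [Nat.card_eq_fintype_card]
  obtain ⟨em⟩ := ecard
  refine ⟨fun x => em (κ (j x)), ?_, ?_⟩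
  · intro x y hxy h
    apply hji
    refine hκ1 _ _ ?_ (em.injective h)
    rw [hj, hj]
    exact Subtype.ext hxy
  · intro i x hx h
    refine hκ2 i (j x) ?_ ?_
    · rw [hM1]
      exact fun h' => hx (hji h')
    · rw [hM1]
      exact em.injective h

end Pool.Agent.EQC.H33
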